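import Pool.Agent.Helper47.HR.Defs

set_option autoImplicit false

/-! Module A of MP_062089_al: one-step additivity of `Xi`. -/

namespace Pool.Agent.Helper47.HR

open Polynomial Matrix

namespace A

variable {K : Type*} [Field K]

/-! ### the residue -/

lemma Rs_add (x y q : K[X]) : Rs (x + y) q = Rs x q + Rs y q := by
  unfold Rs
  rw [Polynomial.add_mod, coeff_add, add_div]

lemma Rs_zero (q : K[X]) : Rs 0 q = 0 := by
  unfold Rs
  simp

lemma Rs_mul_self (h q : K[X]) : Rs (q * h) q = 0 := by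
  unfold Rs
  have : q * h % q = 0 := (EuclideanDomain.mod_eq_zero).2 (dvd_mul_right q h)
  rw [this]
  simp

lemma Rs_deg (x q : K[X]) (h : x.natDegree + 1 < q.natDegree) : Rs x q = 0 := by
  unfold Rs
  have hlt : x.degree < q.degree := by
    apply degree_lt_degree
    omega
  rw [Polynomial.mod_eq_self_iff (by rintro rfl; simp at h) |>.2 hlt]
  rw [coeff_eq_zero_of_natDegree_lt (by omega)]
  simp

lemma Rs_mul_mul (x q h : K[X]) (hh : h ≠ 0) : Rs (x * h) (q * h) = Rs x q := by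
  rcases eq_or_ne q 0 with rfl | hq
  · unfold Rs
    simp
  unfold Rs
  have hmod : x * h % (q * h) = (x % q) * h := by
    have h1 : x * h = (x % q) * h + (q * h) * (x / q) := by
      have := EuclideanDomain.mod_add_div x q
      calc x * h = (x % q + q * (x / q)) * h := by rw [this]
        _ = _ := by ring
    rw [h1, Polynomial.add_mod]
    have h2 : q * h * (x / q) % (q * h) = 0 := (EuclideanDomain.mod_eq_zero).2 (dvd_mul_right _ _)
    rw [h2, add_zero]
    apply (Polynomial.mod_eq_self_iff (mul_ne_zero hq hh)).2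
    rw [degree_mul, degree_mul]
    have h3 : (x % q).degree < q.degree := EuclideanDomain.mod_lt x hq
    have h4 : h.degree = (h.natDegree : WithBot ℕ) := degree_eq_natDegree hh
    rw [h4]
    exact WithBot.add_lt_add_right (WithBot.coe_ne_bot) h3
  rw [hmod, leadingCoeff_mul, natDegree_mul hq hh]
  rcases Nat.eq_zero_or_pos q.natDegree with h0 | hpos
  · -- q is a nonzero constant
    have : x % q = 0 := by
      obtain ⟨c, hc⟩ := natDegree_eq_zero.1 h0
      have hc0 : c ≠ 0 := by rintro rfl; exact hq (by rw [← hc]; simp)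
      rw [← hc]
      apply (EuclideanDomain.mod_eq_zero).2
      exact (isUnit_C.2 (isUnit_iff_ne_zero.2 hc0)).dvd
    rw [this]
    simp
  · have hlt : (x % q).natDegree < q.natDegree := natDegree_mod_lt x hpos.ne'
    have h5 : q.natDegree + h.natDegree - 1 = (q.natDegree - 1) + h.natDegree := by omega
    rw [h5, coeff_mul_add_eq_of_natDegree_le (by omega) le_rfl]
    have h6 : h.leadingCoeff ≠ 0 := leadingCoeff_ne_zero.2 hh
    have h7 : q.leadingCoeff ≠ 0 := leadingCoeff_ne_zero.2 hq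
    change (x % q).coeff (q.natDegree - 1) * h.leadingCoeff / _ = _
    field_simp

/-! ### the operator `dl` -/

lemma coeff_mapD (D : K →+ K) (f : K[X]) (i : ℕ) : (mapD D f).coeff i = D (f.coeff i) := by
  unfold mapD
  rw [finsetSum_coeff]
  simp only [coeff_monomial]
  rw [Finset.sum_ite_eq' (Finset.range (f.natDegree + 1)) i (fun i => D (f.coeff i))]
  split_ifs with h
  · rfl
  · rw [coeff_eq_zero_of_natDegree_lt (by simpa using h), map_zero]

lemma coeff_dl (D : K →+ K) (f : K[X]) (i : ℕ) :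
    (dl D f).coeff i = D (f.coeff (i + 1)) * (i + 1) := by
  unfold dl
  rw [coeff_derivative, coeff_mapD]

lemma dl_add (D : K →+ K) (f g : K[X]) : dl D (f + g) = dl D f + dl D g := by
  ext i
  rw [coeff_add, coeff_dl, coeff_dl, coeff_dl, coeff_add, map_add]
  ring

lemma dl_zero (D : K →+ K) : dl D (0 : K[X]) = 0 := by
  ext i
  rw [coeff_dl]
  simp

lemma dl_C (D : K →+ K) (c : K) : dl D (C c) = 0 := by
  ext i
  rw [coeff_dl, coeff_C_succ]
  simp

lemma natDegree_dl (D : K →+ K) (f : K[X]) : (dl D f).natDegree ≤ f.natDegree - 1 := by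
  rw [natDegree_le_iff_coeff_eq_zero]
  intro N hN
  rw [coeff_dl, coeff_eq_zero_of_natDegree_lt (by omega)]
  simp

lemma dl_monomial (D : K →+ K) (n : ℕ) (r : K) :
    dl D (monomial n r) = monomial (n - 1) (D r * n) := by
  unfold dl
  have : mapD D (monomial n r) = monomial n (D r) := by
    ext i
    rw [coeff_mapD, coeff_monomial, coeff_monomial]
    split_ifs <;> simp
  rw [this, derivative_monomial]

variable [CharP K 2]

lemma dl_sq_mul (D : K →+ K) (hD : ∀ r x, D (r ^ 2 * x) = r ^ 2 * D x) (h f : K[X]) :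
    dl D (h ^ 2 * f) = h ^ 2 * dl D f := by
  have h2 : (2 : K[X]) = 0 := CharTwo.two_eq_zero
  have h2K : (2 : K) = 0 := CharTwo.two_eq_zero
  induction f using Polynomial.induction_on' with
  | add p q hp hq => rw [mul_add, dl_add, dl_add, hp, hq, mul_add]
  | monomial m s =>
    induction h using Polynomial.induction_on' with
    | add p q hp hq =>
      have e : (p + q) ^ 2 = p ^ 2 + q ^ 2 := by linear_combination (p * q) * h2
      rw [e, add_mul, dl_add, hp, hq, add_mul]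
    | monomial n r =>
      rw [monomial_pow, monomial_mul_monomial, dl_monomial, dl_monomial, monomial_mul_monomial,
        hD]
      rcases Nat.eq_zero_or_pos m with rfl | hm
      · have : ((n * 2 + 0 : ℕ) : K) = 0 := by
          push_cast
          linear_combination (n : K) * h2K
        rw [this]
        simp
      · have e1 : n * 2 + m - 1 = n * 2 + (m - 1) := by omega
        have e2 : ((n * 2 + m : ℕ) : K) = m := by
          push_cast
          linear_combination (n : K) * h2K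
        rw [e1, e2]
        congr 1
        ring

/-! ### additivity under a degree condition -/

omit [CharP K 2] [Field K] in
lemma alg_key {R : Type*} [CommRing R] (h2 : (2 : R) = 0)
    (X a b₁ c₁ d a' c₁' a'' δ δ' ε φ N : R)
    (h : a * d + (X * b₁) * (X * c₁) = 1)
    (hadef : a'' = a * a' + X * b₁ * (X * c₁')) (hN : N = a * a' * a'')
    (hφ' : φ = (X * c₁') ^ 2 * δ' + a' ^ 2 * ε) :
    (c₁ * a' + d * c₁') * (δ + a ^ 2 * δ' + (X * b₁) ^ 2 * ε) * (a * a') =
      c₁ * δ * (a' * a'') + c₁' * δ' * (a * a'') + N * (a * c₁ * δ' + b₁ * d * ε) +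
        c₁' * δ * a' + b₁ * φ * a := by
  have P1 : c₁ * a'' + c₁' = a * (c₁ * a' + d * c₁') := by
    rw [hadef]
    linear_combination (-c₁') * h + (X * X * b₁ * c₁ * c₁') * h2
  have P2 : c₁' * a'' + c₁ * a * a' * a'' + b₁ * (X * c₁') ^ 2 =
      (c₁ * a' + d * c₁') * a ^ 2 * a' := by
    rw [hadef]
    linear_combination (-(a * a' * c₁')) * h +
      (b₁ * X ^ 2 * c₁' ^ 2 + X * X * b₁ * c₁ * c₁' * a * a') * h2
  have P3 : b₁ * (d * a'' + a') = (c₁ * a' + d * c₁') * (X * b₁) ^ 2 := by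
    rw [hadef]
    linear_combination (b₁ * a') * h + (b₁ * a' - b₁ * a' * (X * b₁ * (X * c₁))) * h2
  rw [hN, hφ']
  linear_combination (-(a' * δ)) * P1 + (-(a * δ')) * P2 + (-(a * a' * ε)) * P3

lemma A0 (D : K →+ K) (hD : ∀ r x, D (r ^ 2 * x) = r ^ 2 * D x)
    (a b₁ c₁ d a' b' c₁' d' : K[X]) (h : a * d + (X * b₁) * (X * c₁) = 1)
    (h' : a' * d' + b' * (X * c₁') = 1) (ha : a ≠ 0) (ha' : a' ≠ 0)
    (ha'' : a * a' + X * b₁ * (X * c₁') ≠ 0)
    (hdeg : b₁ = 0 ∨ c₁' = 0 ∨ (b₁.natDegree + c₁'.natDegree + 2 ≤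
      (a * a' + X * b₁ * (X * c₁')).natDegree)) :
    Rs ((c₁ * a' + d * c₁') * dl D ((a * a' + X * b₁ * (X * c₁')) * (a * b' + X * b₁ * d')))
        (a * a' + X * b₁ * (X * c₁')) =
      Rs (c₁ * dl D (a * (X * b₁))) a + Rs (c₁' * dl D (a' * b')) a' := by
  have h2 : (2 : K[X]) = 0 := CharTwo.two_eq_zero
  set a'' : K[X] := a * a' + X * b₁ * (X * c₁') with hadef
  set N : K[X] := a * a' * a'' with hN
  set δ : K[X] := dl D (a * (X * b₁)) with hδ
  set δ' : K[X] := dl D (a' * b') with hδ'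
  set ε : K[X] := dl D ((X * c₁') * d') with hε
  set φ : K[X] := dl D (a' * (X * c₁')) with hφ
  have hδ'' : dl D (a'' * (a * b' + X * b₁ * d')) = δ + a ^ 2 * δ' + (X * b₁) ^ 2 * ε := by
    rw [hδ, hδ', hε, ← dl_sq_mul D hD, ← dl_sq_mul D hD, ← dl_add, ← dl_add]
    congr 1
    rw [hadef]
    linear_combination (a * (X * b₁)) * h'
  have hφ' : φ = (X * c₁') ^ 2 * δ' + a' ^ 2 * ε := by
    rw [hφ, hδ', hε, ← dl_sq_mul D hD, ← dl_sq_mul D hD, ← dl_add]
    congr 1
    linear_combination (-(a' * (X * c₁'))) * h'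
  have key : (c₁ * a' + d * c₁') * dl D (a'' * (a * b' + X * b₁ * d')) * (a * a') =
      c₁ * δ * (a' * a'') + c₁' * δ' * (a * a'') + N * (a * c₁ * δ' + b₁ * d * ε) +
        c₁' * δ * a' + b₁ * φ * a := by
    rw [hδ'']
    exact alg_key h2 X a b₁ c₁ d a' c₁' a'' δ δ' ε φ N h hadef hN hφ'
  have hN0 : N ≠ 0 := mul_ne_zero (mul_ne_zero ha ha') ha''
  have n0 : a'' * (a * a') = N := by rw [hN]; ring
  have n1 : a * (a' * a'') = N := by rw [hN]; ring
  have n2 : a' * (a * a'') = N := by rw [hN]; ring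
  have n3 : a * a'' * a' = N := by rw [hN]; ring
  have n4 : a' * a'' * a = N := by rw [hN]; ring
  have e0 := Rs_mul_mul ((c₁ * a' + d * c₁') * dl D (a'' * (a * b' + X * b₁ * d'))) a''
    (a * a') (mul_ne_zero ha ha')
  have e1 := Rs_mul_mul (c₁ * δ) a (a' * a'') (mul_ne_zero ha' ha'')
  have e2 := Rs_mul_mul (c₁' * δ') a' (a * a'') (mul_ne_zero ha ha'')
  have e3 := Rs_mul_mul (c₁' * δ) (a * a'') a' ha'
  have e4 := Rs_mul_mul (b₁ * φ) (a' * a'') a ha
  rw [n0] at e0
  rw [n1] at e1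
  rw [n2] at e2
  rw [n3] at e3
  rw [n4] at e4
  have z3 : Rs (c₁' * δ) (a * a'') = 0 := by
    rcases hdeg with hb | hc | hd
    · have : δ = 0 := by rw [hδ, hb]; simp [dl_zero]
      rw [this, mul_zero, Rs_zero]
    · rw [hc, zero_mul, Rs_zero]
    · apply Rs_deg
      rw [natDegree_mul ha ha'']
      have d1 := natDegree_dl D (a * (X * b₁))
      rw [← hδ] at d1
      have d2 : (a * (X * b₁)).natDegree ≤ a.natDegree + (b₁.natDegree + 1) := by
        refine natDegree_mul_le.trans ?_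
        gcongr
        refine natDegree_mul_le.trans ?_
        rw [natDegree_X]; omega
      have d3 : (c₁' * δ).natDegree ≤ c₁'.natDegree + δ.natDegree := natDegree_mul_le
      omega
  have z4 : Rs (b₁ * φ) (a' * a'') = 0 := by
    rcases hdeg with hb | hc | hd
    · rw [hb, zero_mul, Rs_zero]
    · have : φ = 0 := by rw [hφ, hc]; simp [dl_zero]
      rw [this, mul_zero, Rs_zero]
    · apply Rs_deg
      rw [natDegree_mul ha' ha'']
      have d1 := natDegree_dl D (a' * (X * c₁'))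
      rw [← hφ] at d1
      have d2 : (a' * (X * c₁')).natDegree ≤ a'.natDegree + (c₁'.natDegree + 1) := by
        refine natDegree_mul_le.trans ?_
        gcongr
        refine natDegree_mul_le.trans ?_
        rw [natDegree_X]; omega
      have d3 : (b₁ * φ).natDegree ≤ b₁.natDegree + φ.natDegree := natDegree_mul_le
      omega
  rw [← e0, key, Rs_add, Rs_add, Rs_add, Rs_add, e1, e2, e3, e4, z3, z4, Rs_mul_self]
  ring

omit [CharP K 2] in
lemma divX_X_mul' (p : K[X]) : (X * p).divX = p := by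
  ext n
  rw [coeff_divX, coeff_X_mul]

omit [CharP K 2] in
lemma eq_X_mul_divX (p : K[X]) (h : p.eval 0 = 0) : p = X * p.divX := by
  have h1 := divX_mul_X_add p
  have h2 : p.coeff 0 = 0 := by rw [coeff_zero_eq_eval_zero]; exact h
  rw [h2, C_0, add_zero] at h1
  rw [mul_comm]; exact h1.symm

/-- `Xi` on transvections -/
lemma Xi_U (D : K →+ K) (hD : ∀ r x, D (r ^ 2 * x) = r ^ 2 * D x) (v₁ v₂ : K) (p : K[X]) :
    Xi D (1 + C v₁ * C v₂ * (X * p)) (C v₁ ^ 2 * (X * p)) (C v₂ ^ 2 * (X * p)) =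
      v₁ * v₂ * D (p.coeff 0) := by
  have h2 : (2 : K[X]) = 0 := CharTwo.two_eq_zero
  unfold Xi
  have hdiv : (C v₂ ^ 2 * (X * p)).divX = C v₂ ^ 2 * p := by
    rw [show C v₂ ^ 2 * (X * p) = X * (C v₂ ^ 2 * p) by ring, divX_X_mul']
  have hdl : dl D ((1 + C v₁ * C v₂ * (X * p)) * (C v₁ ^ 2 * (X * p))) =
      C v₁ ^ 2 * dl D (X * p) := by
    have e : (1 + C v₁ * C v₂ * (X * p)) * (C v₁ ^ 2 * (X * p)) =
        C v₁ ^ 2 * (X * p) + (X * p) ^ 2 * C (v₁ ^ 3 * v₂) := by
      rw [C_mul, C_pow]; ring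
    rw [e, dl_add, dl_sq_mul D hD, dl_sq_mul D hD, dl_C, mul_zero, add_zero]
  rw [hdiv, hdl]
  rcases eq_or_ne (v₁ * v₂) 0 with h0 | h0
  · have : C v₂ ^ 2 * p * (C v₁ ^ 2 * dl D (X * p)) = 0 := by
      have h3 : (C v₁ * C v₂ : K[X]) = 0 := by rw [← C_mul, h0, C_0]
      linear_combination (C v₁ * C v₂ * p * dl D (X * p)) * h3
    rw [this, Rs_zero, h0, zero_mul]
  rcases eq_or_ne p 0 with rfl | hp
  · simp [Rs_zero, dl_zero]
  set s : K[X] := dl D (X * p) with hs
  set u : K := v₁ * v₂ with hu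
  have hCu : C v₁ * C v₂ = C u := by rw [hu, C_mul]
  have hnd : (1 + C u * (X * p)).natDegree = p.natDegree + 1 := by
    have h3 : (C u * (X * p)).natDegree = p.natDegree + 1 := by
      rw [natDegree_C_mul h0, natDegree_X_mul hp]
    rw [← h3]
    apply natDegree_add_eq_right_of_natDegree_lt
    rw [h3, natDegree_one]
    omega
  have hne : (1 + C u * (X * p)) ≠ 0 := by
    intro h4
    rw [h4, natDegree_zero] at hnd
    omega
  have e1 := Rs_mul_mul (C v₂ ^ 2 * p * (C v₁ ^ 2 * s)) (1 + C u * (X * p)) X X_ne_zero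
  have e2 : C v₂ ^ 2 * p * (C v₁ ^ 2 * s) * X =
      (C u * s) * (1 + C u * (X * p)) + C u * s := by
    rw [← hCu]
    linear_combination (-(C v₁ * C v₂ * s)) * h2
  have e3 := Rs_mul_mul (C u * s) X (1 + C u * (X * p)) hne
  rw [hCu, ← e1, e2, Rs_add, mul_comm (1 + C u * (X * p)) X, e3]
  have e4 : Rs (C u * s) (X * (1 + C u * (X * p))) = 0 := by
    apply Rs_deg
    rw [natDegree_X_mul hne, hnd]
    have h5 := natDegree_dl D (X * p)
    rw [← hs, natDegree_X_mul hp] at h5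
    have h6 : (C u * s).natDegree ≤ s.natDegree := natDegree_C_mul_le _ _
    omega
  rw [e4, add_zero]
  unfold Rs
  rw [natDegree_X, leadingCoeff_X, div_one, EuclideanDomain.mod_eq_sub_mul_div]
  have h7 : (C u * s).eval 0 = u * D (p.coeff 0) := by
    rw [eval_mul, eval_C, ← coeff_zero_eq_eval_zero, hs, coeff_dl, coeff_X_mul]
    simp
  rw [← h7, coeff_sub, coeff_X_mul_zero, sub_zero, coeff_zero_eq_eval_zero]

/-- the matrices considered -/
def Good (g : Matrix (Fin 2) (Fin 2) K[X]) : Prop := g.det = 1 ∧ g.map (eval 0) = 1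

omit [CharP K 2] in
lemma Good.mul {g g' : Matrix (Fin 2) (Fin 2) K[X]} (h : Good g) (h' : Good g') :
    Good (g * g') := by
  refine ⟨by rw [det_mul, h.1, h'.1, one_mul], ?_⟩
  have : (g * g').map (evalRingHom (0 : K)) = g.map (evalRingHom 0) * g'.map (evalRingHom 0) :=
    Matrix.map_mul
  have e1 : g.map (evalRingHom (0 : K)) = 1 := h.2
  have e2 : g'.map (evalRingHom (0 : K)) = 1 := h'.2
  rw [e1, e2, one_mul] at this
  exact this

omit [CharP K 2] in
lemma Good.entries {g : Matrix (Fin 2) (Fin 2) K[X]} (h : Good g) :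
    (g 0 0).eval 0 = 1 ∧ (g 0 1).eval 0 = 0 ∧ (g 1 0).eval 0 = 0 ∧ (g 1 1).eval 0 = 1 := by
  have h1 := fun i j => congrFun (congrFun h.2 i) j
  have h00 := h1 0 0
  have h01 := h1 0 1
  have h10 := h1 1 0
  have h11 := h1 1 1
  simp only [map_apply] at h00 h01 h10 h11
  refine ⟨?_, ?_, ?_, ?_⟩
  · rw [h00]; simp
  · rw [h01]; simp
  · rw [h10]; simp
  · rw [h11]; simp

/-- A0 for matrices -/
lemma Xi_mul (D : K →+ K) (hD : ∀ r x, D (r ^ 2 * x) = r ^ 2 * D x)
    (g g' : Matrix (Fin 2) (Fin 2) K[X]) (hg : Good g) (hg' : Good g')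
    (hdeg : g 0 1 = 0 ∨ g' 1 0 = 0 ∨
      (g 0 1).natDegree + (g' 1 0).natDegree ≤ ((g * g') 0 0).natDegree) :
    Xi D ((g * g') 0 0) ((g * g') 0 1) ((g * g') 1 0) =
      Xi D (g 0 0) (g 0 1) (g 1 0) + Xi D (g' 0 0) (g' 0 1) (g' 1 0) := by
  have h2 : (2 : K[X]) = 0 := CharTwo.two_eq_zero
  obtain ⟨ha0, hb0, hc0, -⟩ := hg.entries
  obtain ⟨ha0', -, hc0', -⟩ := hg'.entries
  obtain ⟨ha0'', -, -, -⟩ := (hg.mul hg').entries
  have hne : ∀ p : K[X], p.eval 0 = 1 → p ≠ 0 := by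
    rintro p hp rfl
    simp at hp
  have hb := eq_X_mul_divX _ hb0
  have hc := eq_X_mul_divX _ hc0
  have hc' := eq_X_mul_divX _ hc0'
  have hdet := hg.1
  have hdet' := hg'.1
  rw [det_fin_two] at hdet hdet'
  have e00 : (g * g') 0 0 = g 0 0 * g' 0 0 + g 0 1 * g' 1 0 := by
    rw [mul_apply, Fin.sum_univ_two]
  have e01 : (g * g') 0 1 = g 0 0 * g' 0 1 + g 0 1 * g' 1 1 := by
    rw [mul_apply, Fin.sum_univ_two]
  have e10 : (g * g') 1 0 = g 1 0 * g' 0 0 + g 1 1 * g' 1 0 := by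
    rw [mul_apply, Fin.sum_univ_two]
  have hdX : ((g * g') 1 0).divX = (g 1 0).divX * g' 0 0 + g 1 1 * (g' 1 0).divX := by
    have : (g * g') 1 0 = X * ((g 1 0).divX * g' 0 0 + g 1 1 * (g' 1 0).divX) := by
      rw [e10]
      linear_combination (g' 0 0) * hc + (g 1 1) * hc'
    rw [this, divX_X_mul']
  have key := A0 D hD (g 0 0) (g 0 1).divX (g 1 0).divX (g 1 1) (g' 0 0) (g' 0 1)
    (g' 1 0).divX (g' 1 1)
    (by rw [← hb, ← hc]; linear_combination hdet + (g 0 1 * g 1 0) * h2)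
    (by rw [← hc']; linear_combination hdet' + (g' 0 1 * g' 1 0) * h2)
    (hne _ ha0) (hne _ ha0')
    (by rw [← hb, ← hc', ← e00]; exact hne _ ha0'')
    (by
      rw [← hb, ← hc', ← e00]
      rcases hdeg with h | h | h
      · left; rw [h]; simp
      · right; left; rw [h]; simp
      · by_cases h3 : (g 0 1).divX = 0
        · left; exact h3
        by_cases h4 : (g' 1 0).divX = 0
        · right; left; exact h4
        right; right
        have h5 : (g 0 1).natDegree = (g 0 1).divX.natDegree + 1 := by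
          conv_lhs => rw [hb]
          rw [natDegree_X_mul h3]
        have h6 : (g' 1 0).natDegree = (g' 1 0).divX.natDegree + 1 := by
          conv_lhs => rw [hc']
          rw [natDegree_X_mul h4]
        omega)
  rw [← hb, ← hc', ← e00, ← e01, ← hdX] at key
  exact key

lemma U_mul (v₁ v₂ f f' : K[X]) : U v₁ v₂ f * U v₁ v₂ f' = U v₁ v₂ (f + f') := by
  have h2 : (2 : K[X]) = 0 := CharTwo.two_eq_zero
  unfold U
  rw [mul_fin_two]
  refine Matrix.ext fun i j => ?_
  fin_cases i <;> fin_cases j <;> simp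
  · linear_combination (v₁ ^ 2 * v₂ ^ 2 * f * f') * h2
  · linear_combination (v₁ ^ 3 * v₂ * f * f') * h2
  · linear_combination (v₂ ^ 3 * v₁ * f * f') * h2
  · linear_combination (v₁ ^ 2 * v₂ ^ 2 * f * f') * h2

lemma U_good (v₁ v₂ p : K[X]) : Good (U v₁ v₂ (X * p)) := by
  have h2 : (2 : K[X]) = 0 := CharTwo.two_eq_zero
  refine ⟨?_, ?_⟩
  · unfold U
    rw [det_fin_two_of]
    linear_combination (v₁ * v₂ * (X * p)) * h2
  · ext i j
    fin_cases i <;> fin_cases j <;> simp [U]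

lemma Xi_U' (D : K →+ K) (hD : ∀ r x, D (r ^ 2 * x) = r ^ 2 * D x) (v₁ v₂ : K) (p : K[X]) :
    Xi D ((U (C v₁) (C v₂) (X * p)) 0 0) ((U (C v₁) (C v₂) (X * p)) 0 1)
      ((U (C v₁) (C v₂) (X * p)) 1 0) = v₁ * v₂ * D (p.coeff 0) :=
  Xi_U D hD v₁ v₂ p

/-- additivity for `g * U` when the degrees are favourable -/
lemma Xi_step (D : K →+ K) (hD : ∀ r x, D (r ^ 2 * x) = r ^ 2 * D x)
    (g : Matrix (Fin 2) (Fin 2) K[X]) (hg : Good g) (v₁ v₂ : K) (p : K[X])
    (hdeg : g 0 1 = 0 ∨ v₂ = 0 ∨ p = 0 ∨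
      (g 0 1).natDegree + (p.natDegree + 1) ≤
        (g 0 0 + C v₂ * (X * p) * (C v₁ * g 0 0 + C v₂ * g 0 1)).natDegree) :
    Xi D ((g * U (C v₁) (C v₂) (X * p)) 0 0) ((g * U (C v₁) (C v₂) (X * p)) 0 1)
        ((g * U (C v₁) (C v₂) (X * p)) 1 0) =
      Xi D (g 0 0) (g 0 1) (g 1 0) + v₁ * v₂ * D (p.coeff 0) := by
  rw [Xi_mul D hD g _ hg (U_good _ _ _), Xi_U' D hD]
  have e10 : (U (C v₁) (C v₂) (X * p)) 1 0 = C v₂ ^ 2 * (X * p) := rfl
  rcases hdeg with h | h | h | h
  · exact Or.inl h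
  · right; left; rw [e10, h]; simp
  · right; left; rw [e10, h]; simp
  · by_cases hv : v₂ = 0
    · right; left; rw [e10, hv]; simp
    by_cases hp : p = 0
    · right; left; rw [e10, hp]; simp
    right; right
    have e00 : (g * U (C v₁) (C v₂) (X * p)) 0 0 =
        g 0 0 + C v₂ * (X * p) * (C v₁ * g 0 0 + C v₂ * g 0 1) := by
      rw [mul_apply, Fin.sum_univ_two]
      simp only [U, of_apply, cons_val', cons_val_zero, cons_val_one, cons_val_fin_one]
      ring
    rw [e00, e10, ← C_pow, natDegree_C_mul (pow_ne_zero 2 hv), natDegree_X_mul hp]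
    exact h

end A

open A in
/-- A1: one-step additivity of `Xi`. -/
theorem Xi_mul_U {K : Type*} [Field K] [CharP K 2] (D : K →+ K)
    (hD : ∀ r x, D (r ^ 2 * x) = r ^ 2 * D x)
    (g : Matrix (Fin 2) (Fin 2) K[X]) (hdet : g.det = 1)
    (h0 : g.map (eval 0) = 1) (v₁ v₂ t : K) :
    Xi D ((g * U (C v₁) (C v₂) (C t * X)) 0 0) ((g * U (C v₁) (C v₂) (C t * X)) 0 1)
        ((g * U (C v₁) (C v₂) (C t * X)) 1 0)
      = Xi D (g 0 0) (g 0 1) (g 1 0) + v₁ * v₂ * D t := by
  have h2 : (2 : K[X]) = 0 := CharTwo.two_eq_zero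
  have h2K : (2 : K) = 0 := CharTwo.two_eq_zero
  have hg : Good g := ⟨hdet, h0⟩
  have hXt : C t * X = X * C t := mul_comm _ _
  rw [hXt]
  have ht : t = (C t : K[X]).coeff 0 := by simp
  by_cases hv : v₂ = 0
  · rw [Xi_step D hD g hg v₁ v₂ (C t) (Or.inr (Or.inl hv)), ← ht]
  by_cases hb : g 0 1 = 0
  · rw [Xi_step D hD g hg v₁ v₂ (C t) (Or.inl hb), ← ht]
  obtain ⟨ha0, hb0, -, -⟩ := hg.entries
  set a := g 0 0 with ha
  set b := g 0 1 with hbdef
  set ℓ : K[X] := C v₁ * a + C v₂ * b with hℓ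
  have hℓ0 : ℓ ≠ 0 := by
    intro h
    have h1 : ℓ.eval 0 = v₁ := by rw [hℓ]; simp [ha0, hb0]
    rw [h, eval_zero] at h1
    rw [hℓ, ← h1, C_0, zero_mul, zero_add] at h
    rcases mul_eq_zero.1 h with h3 | h3
    · exact hv (C_eq_zero.1 h3)
    · exact hb h3
  set q : K[X] := a / ℓ with hq
  set ρ : K[X] := a % ℓ with hρ
  have hdiv : a = ℓ * q + ρ := (EuclideanDomain.div_add_mod a ℓ).symm
  -- `f0 = X * p0`
  set p0 : K[X] := C v₂⁻¹ * q.divX with hp0
  have hq0 : X * q.divX = q - C (q.coeff 0) := by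
    rw [eq_sub_iff_add_eq, mul_comm]; exact divX_mul_X_add q
  have hCv : C v₂ * C v₂⁻¹ = (1 : K[X]) := by rw [← C_mul, mul_inv_cancel₀ hv, C_1]
  have hf0 : C v₂ * (X * p0) = q - C (q.coeff 0) := by
    rw [hp0, ← hq0]
    linear_combination (X * q.divX) * hCv
  set g1 : Matrix (Fin 2) (Fin 2) K[X] := g * U (C v₁) (C v₂) (X * p0) with hg1
  have hg1good : Good g1 := hg.mul (U_good _ _ _)
  have ha1 : g1 0 0 = C (q.coeff 0) * ℓ + ρ := by
    rw [hg1, mul_apply, Fin.sum_univ_two]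
    simp only [U, of_apply, cons_val', cons_val_zero, cons_val_one, cons_val_fin_one]
    rw [← ha, ← hbdef]
    have e : a * (1 + C v₁ * C v₂ * (X * p0)) + b * (C v₂ ^ 2 * (X * p0)) =
        a + C v₂ * (X * p0) * ℓ := by rw [hℓ]; ring
    rw [e, hf0]
    linear_combination hdiv + (ℓ * q - C (q.coeff 0) * ℓ) * h2
  have hl1 : C v₁ * g1 0 0 + C v₂ * g1 0 1 = ℓ := by
    rw [hg1, mul_apply, Fin.sum_univ_two, mul_apply, Fin.sum_univ_two]
    simp only [U, of_apply, cons_val', cons_val_zero, cons_val_one, cons_val_fin_one]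
    rw [← ha, ← hbdef, hℓ]
    linear_combination (C v₁ * C v₂ * (X * p0) * (C v₁ * a + C v₂ * b)) * h2
  have hρdeg : ρ.degree < ℓ.degree := EuclideanDomain.mod_lt a hℓ0
  have hρnat : ρ.natDegree ≤ ℓ.natDegree := natDegree_le_natDegree hρdeg.le
  have hda1 : (g1 0 0).natDegree ≤ ℓ.natDegree := by
    rw [ha1]
    refine natDegree_add_le_of_degree_le ?_ hρnat
    exact natDegree_C_mul_le _ _
  have hdb1 : (g1 0 1).natDegree ≤ ℓ.natDegree := by
    have e : C v₂ * g1 0 1 = ℓ - C v₁ * g1 0 0 := by rw [← hl1]; ring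
    rw [← natDegree_C_mul hv, e]
    refine (natDegree_sub_le _ _).trans (max_le le_rfl ?_)
    exact (natDegree_C_mul_le _ _).trans hda1
  -- additivity for all `f`
  have step : ∀ p : K[X], Xi D ((g1 * U (C v₁) (C v₂) (X * p)) 0 0)
      ((g1 * U (C v₁) (C v₂) (X * p)) 0 1) ((g1 * U (C v₁) (C v₂) (X * p)) 1 0) =
      Xi D (g1 0 0) (g1 0 1) (g1 1 0) + v₁ * v₂ * D (p.coeff 0) := by
    intro p
    apply Xi_step D hD g1 hg1good
    by_cases hp : p = 0
    · exact Or.inr (Or.inr (Or.inl hp))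
    right; right; right
    rw [hl1]
    have hXp : C v₂ * (X * p) ≠ 0 := mul_ne_zero (C_ne_zero.2 hv) (mul_ne_zero X_ne_zero hp)
    have e : (C v₂ * (X * p) * ℓ).natDegree = p.natDegree + 1 + ℓ.natDegree := by
      rw [natDegree_mul hXp hℓ0, natDegree_C_mul hv, natDegree_X_mul hp]
    rw [natDegree_add_eq_right_of_natDegree_lt (by omega), e]
    omega
  have hU : g * U (C v₁) (C v₂) (X * C t) =
      g1 * U (C v₁) (C v₂) (X * (p0 + C t)) := by
    rw [hg1, mul_assoc, U_mul]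
    congr 2
    linear_combination (-(X * p0)) * h2
  have hg' : g = g1 * U (C v₁) (C v₂) (X * p0) := by
    rw [hg1, mul_assoc, U_mul]
    have e : X * p0 + X * p0 = 0 := by linear_combination (X * p0) * h2
    rw [e]
    have e2 : U (C v₁) (C v₂) (0 : K[X]) = 1 := by
      ext i j
      fin_cases i <;> fin_cases j <;> simp [U]
    rw [e2, mul_one]
  have s1 := step (p0 + C t)
  have s2 := step p0
  rw [← hU] at s1
  rw [← hg'] at s2
  rw [s1, s2, coeff_add, map_add, ← ht]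
  ring

end Pool.Agent.Helper47.HR
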